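import Mathlib
import Pool.Agent.Helper923.HMertens

set_option autoImplicit false

namespace Pool.Agent.H248ME

open Finset

/-- the completely multiplicative function `z ^ Ω(n)` (zero at zero) -/
noncomputable def w (z : ℝ) : ArithmeticFunction ℝ :=
  ⟨fun n => if n = 0 then 0 else z ^ (ArithmeticFunction.cardFactors n), by simp⟩

lemma w_apply (z : ℝ) {n : ℕ} (hn : n ≠ 0) : w z n = z ^ (ArithmeticFunction.cardFactors n) := by
  simp [w, hn]

lemma w_one (z : ℝ) : w z 1 = 1 := by simp [w]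

lemma w_mul (z : ℝ) (m n : ℕ) : w z (m * n) = w z m * w z n := by
  rcases Nat.eq_zero_or_pos m with h | hm
  · subst h; simp
  rcases Nat.eq_zero_or_pos n with h | hn
  · subst h; simp
  rw [w_apply z (Nat.mul_pos hm hn).ne', w_apply z hm.ne', w_apply z hn.ne',
    ArithmeticFunction.cardFactors_mul hm.ne' hn.ne', pow_add]

lemma w_nonneg {z : ℝ} (hz : 0 ≤ z) (n : ℕ) : 0 ≤ w z n := by
  rcases Nat.eq_zero_or_pos n with h | hn
  · subst h; simp
  · rw [w_apply z hn.ne']; positivity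

lemma w_le_one {z : ℝ} (hz : 0 ≤ z) (hz1 : z ≤ 1) (n : ℕ) : w z n ≤ 1 := by
  rcases Nat.eq_zero_or_pos n with h | hn
  · subst h; simp
  · rw [w_apply z hn.ne']; exact pow_le_one₀ hz hz1

lemma w_prime (z : ℝ) {p : ℕ} (hp : p.Prime) : w z p = z := by
  rw [w_apply z hp.ne_zero, ArithmeticFunction.cardFactors_apply_prime hp, pow_one]

/-- partial sums -/
noncomputable def F (z : ℝ) (N : ℕ) : ℝ := ∑ n ∈ Ioc 0 N, w z n

/-- logarithmic partial sums -/
noncomputable def R (z : ℝ) (N : ℕ) : ℝ := ∑ n ∈ Ioc 0 N, w z n / n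

/-- the multiplicative function `w(n)/n` -/
noncomputable def wh (z : ℝ) : ℕ →* ℝ where
  toFun n := w z n / n
  map_one' := by simp [w_one]
  map_mul' m n := by rw [w_mul]; push_cast; ring

lemma R_le_prod {z : ℝ} (hz : 0 ≤ z) (hz1 : z ≤ 1) (N : ℕ) :
    R z N ≤ ∏ p ∈ (N + 1).primesBelow, (1 - z / p)⁻¹ := by
  have h0 : ∀ {p : ℕ}, p.Prime → ‖wh z p‖ < 1 := by
    intro p hp
    change ‖w z p / p‖ < 1
    rw [w_prime z hp, Real.norm_of_nonneg (by positivity)]
    have : (2 : ℝ) ≤ p := by exact_mod_cast hp.two_le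
    rw [div_lt_one (by linarith)]
    linarith
  obtain ⟨-, h2⟩ := EulerProduct.summable_and_hasSum_smoothNumbers_prod_primesBelow_geometric
    (f := wh z) h0 (N + 1)
  have h3 : ∏ p ∈ (N + 1).primesBelow, (1 - wh z p)⁻¹ = ∏ p ∈ (N + 1).primesBelow, (1 - z / p)⁻¹ := by
    refine Finset.prod_congr rfl fun p hp => ?_
    rw [Nat.mem_primesBelow] at hp
    change (1 - w z p / p)⁻¹ = _
    rw [w_prime z hp.2]
  rw [h3] at h2
  have h4 := sum_le_hasSum ((Ioc 0 N).subtype (· ∈ (N + 1).smoothNumbers)) (fun n _ => by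
    change 0 ≤ w z n / n
    exact div_nonneg (w_nonneg hz _) (Nat.cast_nonneg _)) h2
  refine le_trans (le_of_eq ?_) h4
  have h5 : ∑ i ∈ (Ioc 0 N).subtype (· ∈ (N + 1).smoothNumbers), wh z (i : ℕ) =
      ∑ i ∈ (Ioc 0 N).filter (· ∈ (N + 1).smoothNumbers), wh z i :=
    Finset.sum_subtype_eq_sum_filter (fun i => wh z i)
  rw [h5]
  unfold R
  have h6 : (Ioc 0 N).filter (· ∈ (N + 1).smoothNumbers) = Ioc 0 N := by
    refine Finset.filter_true_of_mem fun n hn => ?_
    rw [Finset.mem_Ioc] at hn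
    rw [Nat.mem_smoothNumbers]
    refine ⟨by omega, fun p hp => ?_⟩
    have := Nat.le_of_mem_primeFactorsList hp
    omega
  rw [h6]
  rfl

lemma inv_le_exp {t : ℝ} (h0 : 0 ≤ t) (h1 : t ≤ 1 / 2) : (1 - t)⁻¹ ≤ Real.exp (t + 2 * t ^ 2) := by
  have h2 : (1 - t)⁻¹ ≤ 1 + (t + 2 * t ^ 2) := by
    rw [inv_le_iff_one_le_mul₀ (by linarith)]
    nlinarith [sq_nonneg t, mul_nonneg h0 h0, mul_nonneg (mul_nonneg h0 h0) h0]
  have := Real.add_one_le_exp (t + 2 * t ^ 2)
  linarith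

/-- the sum of the reciprocals of the primes up to `N` -/
noncomputable def PS (N : ℕ) : ℝ := ∑ p ∈ (N + 1).primesBelow, (1 : ℝ) / p

lemma sum_inv_sq_le (N : ℕ) : ∑ p ∈ (N + 1).primesBelow, (1 : ℝ) / (p : ℝ) ^ 2 ≤ 2 := by
  have h1 : ∀ N : ℕ, ∑ n ∈ Ioc 0 (N + 1), (1 : ℝ) / (n : ℝ) ^ 2 ≤ 2 - 1 / ((N : ℝ) + 1) := by
    intro N
    induction N with
    | zero => norm_num
    | succ n ih =>
      rw [Finset.sum_Ioc_succ_top (by omega)]
      have : (0 : ℝ) < (n : ℝ) + 1 := by positivity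
      have h3 : (1 : ℝ) / ((n + 1 + 1 : ℕ) : ℝ) ^ 2 ≤ 1 / ((n : ℝ) + 1) - 1 / ((n : ℝ) + 1 + 1) := by
        push_cast
        rw [div_sub_div _ _ (by positivity) (by positivity), div_le_div_iff₀ (by positivity) (by positivity)]
        nlinarith
      push_cast at *
      linarith
  refine le_trans ?_ ((h1 N).trans ?_)
  · refine Finset.sum_le_sum_of_subset_of_nonneg ?_ (fun _ _ _ => by positivity)
    intro p hp
    rw [Nat.mem_primesBelow] at hp
    rw [Finset.mem_Ioc]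
    exact ⟨hp.2.pos, hp.1.le⟩
  · have : (0 : ℝ) ≤ 1 / ((N : ℝ) + 1) := by positivity
    linarith

lemma PS_bounds : ∃ C : ℝ, 0 ≤ C ∧ ∀ N : ℕ, 2 ≤ N →
    |PS N - Real.log (Real.log N)| ≤ C := by
  obtain ⟨C, hC0, hC⟩ := Pool.Agent.Helper923.HMertens.mertens_ratio
  have hl2 : 0 < Real.log 2 := Real.log_pos (by norm_num)
  refine ⟨C / Real.log 2 + 1 / 2 + |Real.log (Real.log 2)|, by positivity, fun N hN => ?_⟩
  have h1 := hC 2 N le_rfl hN
  have h2 : PS N = 1 / 2 + ∑ p ∈ (Finset.Ioc 2 N).filter Nat.Prime, (1 : ℝ) / p := by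
    have h3 : (N + 1).primesBelow = insert 2 ((Finset.Ioc 2 N).filter Nat.Prime) := by
      ext p
      rw [Nat.mem_primesBelow, Finset.mem_insert, Finset.mem_filter, Finset.mem_Ioc]
      constructor
      · rintro ⟨h1, h2⟩
        have := h2.two_le
        by_cases h : p = 2
        · left; exact h
        · right; exact ⟨⟨by omega, by omega⟩, h2⟩
      · rintro (h | ⟨⟨h1, h2⟩, h3⟩)
        · subst h; exact ⟨by omega, Nat.prime_two⟩
        · exact ⟨by omega, h3⟩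
    unfold PS
    rw [h3, Finset.sum_insert (by simp)]
    norm_num
  have hlN : 0 < Real.log N := Real.log_pos (by exact_mod_cast (by omega : 1 < N))
  rw [Real.log_div hlN.ne' (by exact_mod_cast hl2.ne')] at h1
  rw [h2]
  push_cast at h1
  rw [abs_le] at h1 ⊢
  have h4 := neg_abs_le (Real.log (Real.log 2))
  have h5 := le_abs_self (Real.log (Real.log 2))
  constructor <;> linarith [h1.1, h1.2]

lemma R_le {z : ℝ} (hz : 0 ≤ z) (hz1 : z ≤ 1) : ∃ C : ℝ, 0 < C ∧ ∀ N : ℕ, 2 ≤ N →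
    R z N ≤ C * (Real.log N) ^ z := by
  obtain ⟨C, hC0, hC⟩ := PS_bounds
  refine ⟨Real.exp (C + 4), Real.exp_pos _, fun N hN => ?_⟩
  refine (R_le_prod hz hz1 N).trans ?_
  have h1 : ∏ p ∈ (N + 1).primesBelow, (1 - z / p)⁻¹ ≤
      ∏ p ∈ (N + 1).primesBelow, Real.exp (z / p + 2 * (z / p) ^ 2) := by
    refine Finset.prod_le_prod (fun p hp => ?_) (fun p hp => ?_)
    · rw [Nat.mem_primesBelow] at hp
      have : (2 : ℝ) ≤ p := by exact_mod_cast hp.2.two_le
      have : z / p ≤ 1 / 2 := by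
        rw [div_le_div_iff₀ (by linarith) (by norm_num)]; linarith
      exact inv_nonneg.2 (by linarith)
    · rw [Nat.mem_primesBelow] at hp
      have : (2 : ℝ) ≤ p := by exact_mod_cast hp.2.two_le
      refine inv_le_exp (by positivity) ?_
      rw [div_le_div_iff₀ (by linarith) (by norm_num)]; linarith
  refine h1.trans ?_
  rw [← Real.exp_sum, Finset.sum_add_distrib]
  have h2 : ∑ p ∈ (N + 1).primesBelow, z / (p : ℝ) = z * PS N := by
    unfold PS
    rw [Finset.mul_sum]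
    exact Finset.sum_congr rfl fun p _ => by ring
  have h3 : ∑ p ∈ (N + 1).primesBelow, 2 * (z / (p : ℝ)) ^ 2 ≤ 4 := by
    have h4 : ∑ p ∈ (N + 1).primesBelow, 2 * (z / (p : ℝ)) ^ 2 ≤
        ∑ p ∈ (N + 1).primesBelow, 2 * ((1 : ℝ) / (p : ℝ) ^ 2) := by
      refine Finset.sum_le_sum fun p hp => ?_
      rw [div_pow]
      gcongr
      exact pow_le_one₀ hz hz1
    refine h4.trans ?_
    rw [← Finset.mul_sum]
    have := sum_inv_sq_le N
    linarith
  rw [h2]
  have hlN : 0 < Real.log N := Real.log_pos (by exact_mod_cast (by omega : 1 < N))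
  have h5 := (abs_le.1 (hC N hN)).2
  rw [Real.rpow_def_of_pos hlN, ← Real.exp_add]
  apply Real.exp_le_exp.2
  have h6 : z * PS N ≤ z * (Real.log (Real.log N) + C) := mul_le_mul_of_nonneg_left (by linarith) hz
  have h7 : z * C ≤ C := by nlinarith
  nlinarith

end Pool.Agent.H248ME

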