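import Mathlib
import Pool.Agent.H248ME.A

set_option autoImplicit false

namespace Pool.Agent.H248ME

open Finset

/-- `w(n) Λ(n)` -/
noncomputable def wL (z : ℝ) : ArithmeticFunction ℝ :=
  ⟨fun n => w z n * ArithmeticFunction.vonMangoldt n, by simp⟩

lemma mul_wL (z : ℝ) (n : ℕ) : (w z * wL z) n = w z n * Real.log n := by
  rcases Nat.eq_zero_or_pos n with h | hn
  · subst h; simp
  rw [ArithmeticFunction.mul_apply]
  have h1 : ∀ x ∈ n.divisorsAntidiagonal, w z x.1 * wL z x.2 =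
      w z n * ArithmeticFunction.vonMangoldt x.2 := by
    intro x hx
    rw [Nat.mem_divisorsAntidiagonal] at hx
    change w z x.1 * (w z x.2 * ArithmeticFunction.vonMangoldt x.2) = _
    rw [← mul_assoc, ← w_mul, hx.1]
  rw [Finset.sum_congr rfl h1, ← Finset.mul_sum]
  congr 1
  rw [← ArithmeticFunction.vonMangoldt_sum, Nat.sum_divisorsAntidiagonal' (f := fun _ b => ArithmeticFunction.vonMangoldt b)]

lemma F_nonneg {z : ℝ} (hz : 0 ≤ z) (N : ℕ) : 0 ≤ F z N :=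
  Finset.sum_nonneg fun n _ => w_nonneg hz n

lemma R_nonneg {z : ℝ} (hz : 0 ≤ z) (N : ℕ) : 0 ≤ R z N :=
  Finset.sum_nonneg fun n _ => div_nonneg (w_nonneg hz n) (Nat.cast_nonneg _)

lemma F_mono {z : ℝ} (hz : 0 ≤ z) {M N : ℕ} (h : M ≤ N) : F z M ≤ F z N :=
  Finset.sum_le_sum_of_subset_of_nonneg (Finset.Ioc_subset_Ioc_right h)
    (fun n _ _ => w_nonneg hz n)

lemma F_log_le {z : ℝ} (hz : 0 ≤ z) (hz1 : z ≤ 1) (N : ℕ) (hN : 1 ≤ N) :
    F z N * Real.log N ≤ (Real.log 4 + 5) * N * R z N := by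
  have hN0 : (0 : ℝ) < N := by exact_mod_cast hN
  have h1 : F z N * Real.log N = ∑ n ∈ Ioc 0 N, w z n * Real.log n +
      ∑ n ∈ Ioc 0 N, w z n * Real.log (N / n) := by
    unfold F
    rw [Finset.sum_mul, ← Finset.sum_add_distrib]
    refine Finset.sum_congr rfl fun n hn => ?_
    rw [Finset.mem_Ioc] at hn
    have hn0 : (0 : ℝ) < n := by exact_mod_cast hn.1
    rw [Real.log_div hN0.ne' hn0.ne']
    ring
  have h2 : ∑ n ∈ Ioc 0 N, w z n * Real.log (N / n) ≤ N * R z N := by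
    unfold R
    rw [Finset.mul_sum]
    refine Finset.sum_le_sum fun n hn => ?_
    rw [Finset.mem_Ioc] at hn
    have hn0 : (0 : ℝ) < n := by exact_mod_cast hn.1
    have h3 : Real.log ((N : ℝ) / n) ≤ N / n := by
      have := Real.log_le_sub_one_of_pos (show 0 < (N : ℝ) / n by positivity)
      linarith
    calc w z n * Real.log (N / n) ≤ w z n * (N / n) := mul_le_mul_of_nonneg_left h3 (w_nonneg hz n)
      _ = N * (w z n / n) := by ring
  have h3 : ∑ n ∈ Ioc 0 N, w z n * Real.log n ≤ (Real.log 4 + 4) * N * R z N := by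
    have h4 : ∑ n ∈ Ioc 0 N, w z n * Real.log n = ∑ n ∈ Ioc 0 N, (w z * wL z) n :=
      Finset.sum_congr rfl fun n _ => (mul_wL z n).symm
    rw [h4, ArithmeticFunction.sum_Ioc_mul_eq_sum_sum]
    unfold R
    rw [Finset.mul_sum]
    refine Finset.sum_le_sum fun n hn => ?_
    rw [Finset.mem_Ioc] at hn
    have hn0 : (0 : ℝ) < n := by exact_mod_cast hn.1
    have h5 : ∑ m ∈ Ioc 0 (N / n), wL z m ≤ Chebyshev.psi ((N / n : ℕ) : ℝ) := by
      unfold Chebyshev.psi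
      rw [Nat.floor_natCast]
      refine Finset.sum_le_sum fun m _ => ?_
      change w z m * ArithmeticFunction.vonMangoldt m ≤ _
      have := w_le_one hz hz1 m
      have h7 := ArithmeticFunction.vonMangoldt_nonneg (n := m)
      nlinarith
    have h6 := Chebyshev.psi_le_const_mul_self (x := ((N / n : ℕ) : ℝ)) (Nat.cast_nonneg _)
    have h7 : ((N / n : ℕ) : ℝ) ≤ (N : ℝ) / n := Nat.cast_div_le
    have h8 : 0 ≤ Real.log 4 + 4 := by
      have := Real.log_nonneg (show (1 : ℝ) ≤ 4 by norm_num)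
      linarith
    calc w z n * ∑ m ∈ Ioc 0 (N / n), wL z m ≤ w z n * ((Real.log 4 + 4) * (N / n)) := by
          apply mul_le_mul_of_nonneg_left _ (w_nonneg hz n)
          exact h5.trans (h6.trans (mul_le_mul_of_nonneg_left h7 h8))
      _ = (Real.log 4 + 4) * N * (w z n / n) := by ring
  rw [h1]
  nlinarith

lemma F_le {z : ℝ} (hz : 0 ≤ z) (hz1 : z ≤ 1) : ∃ C : ℝ, 0 < C ∧ ∀ N : ℕ, 2 ≤ N →
    F z N ≤ C * N * (Real.log N) ^ (z - 1) := by
  obtain ⟨C, hC0, hC⟩ := R_le hz hz1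
  have h8 : 0 < Real.log 4 + 5 := by
    have := Real.log_nonneg (show (1 : ℝ) ≤ 4 by norm_num)
    linarith
  refine ⟨(Real.log 4 + 5) * C, by positivity, fun N hN => ?_⟩
  have h1 := F_log_le hz hz1 N (by omega)
  have h2 := hC N hN
  have hlN : 0 < Real.log N := Real.log_pos (by exact_mod_cast (by omega : 1 < N))
  rw [Real.rpow_sub_one hlN.ne']
  have h3 : F z N * Real.log N ≤ (Real.log 4 + 5) * N * (C * Real.log N ^ z) :=
    h1.trans (mul_le_mul_of_nonneg_left h2 (by positivity))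
  rw [← le_div_iff₀ hlN] at h3
  refine h3.trans (le_of_eq ?_)
  ring

/-- bound at powers of two -/
lemma F_pow_le {z : ℝ} (hz : 0 ≤ z) (hz1 : z ≤ 1) : ∃ C : ℝ, 0 < C ∧ ∀ i : ℕ, 
    F z (2 ^ (i + 1)) ≤ C * 2 ^ (i + 1) * ((i : ℝ) + 1) ^ (z - 1) := by
  obtain ⟨C, hC0, hC⟩ := F_le hz hz1
  refine ⟨C * (Real.log 2) ^ (z - 1), by
    have : 0 < Real.log 2 := Real.log_pos (by norm_num)
    positivity, fun i => ?_⟩
  have h1 := hC (2 ^ (i + 1)) (by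
    calc 2 = 2 ^ 1 := by norm_num
      _ ≤ 2 ^ (i + 1) := Nat.pow_le_pow_right (by norm_num) (by omega))
  refine h1.trans (le_of_eq ?_)
  push_cast
  rw [Real.log_pow, Real.mul_rpow (by positivity) (Real.log_nonneg (by norm_num))]
  push_cast
  ring

/-- The weighted energy sum. -/
noncomputable def T (N : ℕ) : ℝ :=
  ∑ m ∈ Ioc 0 N, w (1 / 2) m * F (1 / 2) m * F (1 / 4) (N / m) * (N / m : ℕ)

lemma T_le_dyadic (N : ℕ) (hN : 1 ≤ N) :
    T N ≤ ∑ i ∈ range (Nat.log 2 N + 1), F (1 / 2) (2 ^ (i + 1)) ^ 2 *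
      F (1 / 4) (2 ^ (Nat.log 2 N - i + 1)) * 2 ^ (Nat.log 2 N - i + 1) := by
  set I := Nat.log 2 N with hI
  have hz2 : (0 : ℝ) ≤ 1 / 2 := by norm_num
  have hz4 : (0 : ℝ) ≤ 1 / 4 := by norm_num
  have hNI : N < 2 ^ (I + 1) := Nat.lt_pow_succ_log_self (by norm_num) N
  unfold T
  have h1 : ∀ m ∈ Ioc 0 N, Nat.log 2 m ∈ range (I + 1) := by
    intro m hm
    rw [Finset.mem_Ioc] at hm
    rw [Finset.mem_range]
    have := Nat.log_mono_right (b := 2) hm.2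
    omega
  rw [← Finset.sum_fiberwise_of_maps_to h1]
  refine Finset.sum_le_sum fun i hi => ?_
  rw [Finset.mem_range] at hi
  have h2 : ∀ m ∈ (Ioc 0 N).filter (fun m => Nat.log 2 m = i),
      w (1 / 2) m * F (1 / 2) m * F (1 / 4) (N / m) * (N / m : ℕ) ≤
      w (1 / 2) m * (F (1 / 2) (2 ^ (i + 1)) * F (1 / 4) (2 ^ (I - i + 1)) * 2 ^ (I - i + 1)) := by
    intro m hm
    rw [Finset.mem_filter, Finset.mem_Ioc] at hm
    obtain ⟨⟨hm0, hmN⟩, hmi⟩ := hm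
    have h3 : m < 2 ^ (i + 1) := by rw [← hmi]; exact Nat.lt_pow_succ_log_self (by norm_num) m
    have h4 : 2 ^ i ≤ m := by rw [← hmi]; exact Nat.pow_log_le_self 2 (by omega)
    have h5 : N / m ≤ 2 ^ (I - i + 1) := by
      have h6 : N / m ≤ N / 2 ^ i := Nat.div_le_div_left h4 (by positivity)
      refine h6.trans ?_
      apply Nat.div_le_of_le_mul
      rw [← pow_add]
      have : i + (I - i + 1) = I + 1 := by omega
      rw [this]
      exact hNI.le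
    have h7 : F (1 / 2) m ≤ F (1 / 2) (2 ^ (i + 1)) := F_mono hz2 h3.le
    have h8 : F (1 / 4) (N / m) ≤ F (1 / 4) (2 ^ (I - i + 1)) := F_mono hz4 h5
    have h9 : ((N / m : ℕ) : ℝ) ≤ 2 ^ (I - i + 1) := by exact_mod_cast h5
    have e1 := F_nonneg hz2 m
    have e2 := F_nonneg hz4 (N / m)
    have e3 := w_nonneg hz2 m
    have e4 := F_nonneg hz2 (2 ^ (i + 1))
    have e5 := F_nonneg hz4 (2 ^ (I - i + 1))
    calc w (1 / 2) m * F (1 / 2) m * F (1 / 4) (N / m) * (N / m : ℕ)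
        = w (1 / 2) m * (F (1 / 2) m * F (1 / 4) (N / m) * (N / m : ℕ)) := by ring
      _ ≤ _ := by gcongr
  refine (Finset.sum_le_sum h2).trans ?_
  rw [← Finset.sum_mul]
  have h3 : ∑ m ∈ (Ioc 0 N).filter (fun m => Nat.log 2 m = i), w (1 / 2) m ≤
      F (1 / 2) (2 ^ (i + 1)) := by
    refine Finset.sum_le_sum_of_subset_of_nonneg ?_ (fun m _ _ => w_nonneg hz2 m)
    intro m hm
    rw [Finset.mem_filter, Finset.mem_Ioc] at hm
    obtain ⟨⟨hm0, hmN⟩, hmi⟩ := hm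
    rw [Finset.mem_Ioc]
    refine ⟨hm0, ?_⟩
    rw [← hmi]
    exact (Nat.lt_pow_succ_log_self (by norm_num) m).le
  have e4 := F_nonneg hz2 (2 ^ (i + 1))
  have e5 := F_nonneg hz4 (2 ^ (I - i + 1))
  calc _ ≤ F (1 / 2) (2 ^ (i + 1)) *
        (F (1 / 2) (2 ^ (i + 1)) * F (1 / 4) (2 ^ (I - i + 1)) * 2 ^ (I - i + 1)) :=
        mul_le_mul_of_nonneg_right h3 (by positivity)
    _ = _ := by ring

lemma conv_term {x y s : ℝ} (hx : 1 ≤ x) (hy : 1 ≤ y) (hs : x + y = s) :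
    x ^ (-1 : ℝ) * y ^ (-3 / 4 : ℝ) ≤ 2 * s ^ (-3 / 4 : ℝ) * (1 / x + 1 / y) := by
  have hx0 : 0 < x := by linarith
  have hy0 : 0 < y := by linarith
  have hs0 : 0 < s := by linarith
  have h34 : (s / 2) ^ (-3 / 4 : ℝ) ≤ 2 * s ^ (-3 / 4 : ℝ) := by
    rw [Real.div_rpow hs0.le (by norm_num), div_eq_mul_inv, mul_comm]
    apply mul_le_mul_of_nonneg_right _ (by positivity)
    rw [← Real.rpow_neg (by norm_num)]
    calc (2 : ℝ) ^ (-(-3 / 4 : ℝ)) ≤ 2 ^ (1 : ℝ) :=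
          Real.rpow_le_rpow_of_exponent_le (by norm_num) (by norm_num)
      _ = 2 := by norm_num
  rcases le_total x y with h | h
  · have h1 : y ^ (-3 / 4 : ℝ) ≤ (s / 2) ^ (-3 / 4 : ℝ) :=
      Real.rpow_le_rpow_of_nonpos (by linarith) (by linarith) (by norm_num)
    rw [Real.rpow_neg_one]
    calc x⁻¹ * y ^ (-3 / 4 : ℝ) ≤ x⁻¹ * (2 * s ^ (-3 / 4 : ℝ)) := by
          apply mul_le_mul_of_nonneg_left (h1.trans h34) (by positivity)
      _ = 2 * s ^ (-3 / 4 : ℝ) * (1 / x) := by ring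
      _ ≤ _ := by
          apply mul_le_mul_of_nonneg_left _ (by positivity)
          have : 0 ≤ 1 / y := by positivity
          linarith
  · have h1 : x ^ (-3 / 4 : ℝ) ≤ (s / 2) ^ (-3 / 4 : ℝ) :=
      Real.rpow_le_rpow_of_nonpos (by linarith) (by linarith) (by norm_num)
    have h2 : x ^ (-1 : ℝ) = x ^ (-3 / 4 : ℝ) * x ^ (-1 / 4 : ℝ) := by
      rw [← Real.rpow_add hx0]; norm_num
    have h3 : x ^ (-1 / 4 : ℝ) ≤ y ^ (-1 / 4 : ℝ) :=
      Real.rpow_le_rpow_of_nonpos hy0 h (by norm_num)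
    have h4 : y ^ (-1 / 4 : ℝ) * y ^ (-3 / 4 : ℝ) = 1 / y := by
      rw [← Real.rpow_add hy0]; norm_num
      rw [Real.rpow_neg_one]
    calc x ^ (-1 : ℝ) * y ^ (-3 / 4 : ℝ) = x ^ (-3 / 4 : ℝ) * (x ^ (-1 / 4 : ℝ) * y ^ (-3 / 4 : ℝ)) := by
          rw [h2]; ring
      _ ≤ (2 * s ^ (-3 / 4 : ℝ)) * (y ^ (-1 / 4 : ℝ) * y ^ (-3 / 4 : ℝ)) := by
          have := h1.trans h34
          gcongr
      _ = 2 * s ^ (-3 / 4 : ℝ) * (1 / y) := by rw [h4]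
      _ ≤ _ := by
          apply mul_le_mul_of_nonneg_left _ (by positivity)
          have : 0 ≤ 1 / x := by positivity
          linarith

lemma T_le : ∃ C : ℝ, 0 < C ∧ ∀ N : ℕ, 1 ≤ N →
    T N ≤ C * (N : ℝ) ^ 2 * ((Nat.log 2 N : ℝ) + 2) ^ (-3 / 4 : ℝ) *
      (1 + Real.log ((Nat.log 2 N : ℝ) + 1)) := by
  have hz2 : (0 : ℝ) ≤ 1 / 2 := by norm_num
  have hz4 : (0 : ℝ) ≤ 1 / 4 := by norm_num
  obtain ⟨C1, hC1, h1⟩ := F_pow_le hz2 (by norm_num)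
  obtain ⟨C2, hC2, h2⟩ := F_pow_le hz4 (by norm_num)
  refine ⟨64 * C1 ^ 2 * C2, by positivity, fun N hN => ?_⟩
  refine (T_le_dyadic N hN).trans ?_
  set I := Nat.log 2 N with hI
  have hIN : ((2 : ℝ) ^ I) ≤ N := by exact_mod_cast Nat.pow_log_le_self 2 (by omega)
  have hterm : ∀ i ∈ range (I + 1), F (1 / 2) (2 ^ (i + 1)) ^ 2 *
      F (1 / 4) (2 ^ (I - i + 1)) * 2 ^ (I - i + 1) ≤
      (32 * C1 ^ 2 * C2 * (N : ℝ) ^ 2 * ((I : ℝ) + 2) ^ (-3 / 4 : ℝ)) *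
        (1 / ((i : ℝ) + 1) + 1 / (((I - i : ℕ) : ℝ) + 1)) := by
    intro i hi
    rw [Finset.mem_range] at hi
    have a1 := h1 i
    have a2 := h2 (I - i)
    have e4 := F_nonneg hz2 (2 ^ (i + 1))
    have e5 := F_nonneg hz4 (2 ^ (I - i + 1))
    have hc := conv_term (x := (i : ℝ) + 1) (y := ((I - i : ℕ) : ℝ) + 1) (s := (I : ℝ) + 2)
      (by linarith [Nat.cast_nonneg (α := ℝ) i]) (by linarith [Nat.cast_nonneg (α := ℝ) (I - i)])
      (by rw [Nat.cast_sub (by omega)]; ring)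
    have hsq : (((i : ℝ) + 1) ^ ((1 / 2 : ℝ) - 1)) ^ 2 = ((i : ℝ) + 1) ^ (-1 : ℝ) := by
      rw [← Real.rpow_natCast, ← Real.rpow_mul (by positivity)]
      norm_num
    have h34 : (((I - i : ℕ) : ℝ) + 1) ^ ((1 / 4 : ℝ) - 1) = (((I - i : ℕ) : ℝ) + 1) ^ (-3 / 4 : ℝ) := by
      norm_num
    have hp : (2 : ℝ) ^ i * 2 ^ (I - i) = 2 ^ I := by
      rw [← pow_add]; congr 1; omega
    calc F (1 / 2) (2 ^ (i + 1)) ^ 2 * F (1 / 4) (2 ^ (I - i + 1)) * 2 ^ (I - i + 1)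
        ≤ (C1 * 2 ^ (i + 1) * ((i : ℝ) + 1) ^ ((1 / 2 : ℝ) - 1)) ^ 2 *
          (C2 * 2 ^ (I - i + 1) * (((I - i : ℕ) : ℝ) + 1) ^ ((1 / 4 : ℝ) - 1)) * 2 ^ (I - i + 1) := by
          gcongr
      _ = 16 * C1 ^ 2 * C2 * (2 ^ i * 2 ^ (I - i)) ^ 2 *
          ((((i : ℝ) + 1) ^ ((1 / 2 : ℝ) - 1)) ^ 2 * (((I - i : ℕ) : ℝ) + 1) ^ ((1 / 4 : ℝ) - 1)) := by
          ring
      _ = 16 * C1 ^ 2 * C2 * (2 ^ I) ^ 2 *
          (((i : ℝ) + 1) ^ (-1 : ℝ) * (((I - i : ℕ) : ℝ) + 1) ^ (-3 / 4 : ℝ)) := by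
          rw [hsq, h34, hp]
      _ ≤ 16 * C1 ^ 2 * C2 * (N : ℝ) ^ 2 *
          (2 * ((I : ℝ) + 2) ^ (-3 / 4 : ℝ) * (1 / ((i : ℝ) + 1) + 1 / (((I - i : ℕ) : ℝ) + 1))) := by
          gcongr
      _ = _ := by ring
  refine (Finset.sum_le_sum hterm).trans ?_
  rw [← Finset.mul_sum, Finset.sum_add_distrib]
  have hh : ∑ i ∈ range (I + 1), 1 / ((i : ℝ) + 1) ≤ 1 + Real.log ((I : ℝ) + 1) := by
    have h3 := harmonic_le_one_add_log (I + 1)
    have h4 : ((harmonic (I + 1) : ℚ) : ℝ) = ∑ i ∈ range (I + 1), 1 / ((i : ℝ) + 1) := by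
      unfold harmonic
      push_cast
      exact Finset.sum_congr rfl fun i _ => by rw [one_div]
    rw [h4] at h3
    push_cast at h3
    exact h3
  have hr : ∑ i ∈ range (I + 1), 1 / (((I - i : ℕ) : ℝ) + 1) = ∑ i ∈ range (I + 1), 1 / ((i : ℝ) + 1) := by
    have := Finset.sum_range_reflect (fun i : ℕ => 1 / ((i : ℝ) + 1)) (I + 1)
    rw [← this]
    refine Finset.sum_congr rfl fun i hi => ?_
    have : I + 1 - 1 - i = I - i := by omega
    rw [this]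
  rw [hr]
  have h5 : 0 ≤ 32 * C1 ^ 2 * C2 * (N : ℝ) ^ 2 * ((I : ℝ) + 2) ^ (-3 / 4 : ℝ) := by positivity
  nlinarith

end Pool.Agent.H248ME
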