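import Mathlib
import Pool.Agent.H248ME.B

set_option autoImplicit false

namespace Pool.Agent.H248ME

open Finset

/-- The mixed multiplicative energy: the number of quadruples `((a, b), (c, d))` with `a, c ∈ B`,
`1 ≤ b, d ≤ N` and `ab = cd`. -/
def energy (B : Finset ℕ) (N : ℕ) : ℕ :=
  (((B ×ˢ Finset.Icc 1 N) ×ˢ (B ×ˢ Finset.Icc 1 N)).filter
    (fun q => q.1.1 * q.1.2 = q.2.1 * q.2.2)).card

lemma energy_mono {B B' : Finset ℕ} (h : B' ⊆ B) (N : ℕ) : energy B' N ≤ energy B N := by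
  unfold energy
  apply Finset.card_le_card
  apply Finset.filter_subset_filter
  apply Finset.product_subset_product <;> exact Finset.product_subset_product h (Finset.Subset.refl _)

/-- the solution set -/
def SS (B : Finset ℕ) (N : ℕ) : Finset ((ℕ × ℕ) × (ℕ × ℕ)) :=
  ((B ×ˢ Finset.Icc 1 N) ×ˢ (B ×ˢ Finset.Icc 1 N)).filter
    (fun q => q.1.1 * q.1.2 = q.2.1 * q.2.2)

/-- the parametrisation -/
def phi (q : (ℕ × ℕ) × (ℕ × ℕ)) : (_ : ℕ × ℕ) × (ℕ × ℕ) :=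
  ⟨(q.1.1 / Nat.gcd q.1.1 q.2.1, q.2.1 / Nat.gcd q.1.1 q.2.1),
    (Nat.gcd q.1.1 q.2.1, q.1.2 / (q.2.1 / Nat.gcd q.1.1 q.2.1))⟩

lemma phi_spec {B : Finset ℕ} {N : ℕ} (hB : B ⊆ Icc 1 N) {q : (ℕ × ℕ) × (ℕ × ℕ)}
    (hq : q ∈ SS B N) :
    ∃ g x y h : ℕ, phi q = ⟨(x, y), (g, h)⟩ ∧ q = ((g * x, y * h), (g * y, x * h)) ∧
      0 < g ∧ 0 < x ∧ 0 < y ∧ 0 < h := by
  obtain ⟨⟨a, b⟩, ⟨c, d⟩⟩ := q
  simp only [SS, Finset.mem_filter, Finset.mem_product, Finset.mem_Icc] at hq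
  obtain ⟨⟨⟨ha, hb1, hb2⟩, hc, hd1, hd2⟩, he⟩ := hq
  have ha' := Finset.mem_Icc.1 (hB ha)
  have hc' := Finset.mem_Icc.1 (hB hc)
  have hg : 0 < Nat.gcd a c := Nat.gcd_pos_of_pos_left _ (by omega)
  set g := Nat.gcd a c with hgdef
  obtain ⟨x, hx⟩ := Nat.gcd_dvd_left a c
  obtain ⟨y, hy⟩ := Nat.gcd_dvd_right a c
  rw [← hgdef] at hx hy
  have hx0 : 0 < x := by
    rcases Nat.eq_zero_or_pos x with h | h
    · subst h; omega
    · exact h
  have hy0 : 0 < y := by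
    rcases Nat.eq_zero_or_pos y with h | h
    · subst h; omega
    · exact h
  have hax : a / g = x := by rw [hx]; exact Nat.mul_div_cancel_left _ hg
  have hcy : c / g = y := by rw [hy]; exact Nat.mul_div_cancel_left _ hg
  have hcop : Nat.Coprime x y := by
    rw [← hax, ← hcy]; exact Nat.coprime_div_gcd_div_gcd hg
  have he2 : x * b = y * d := by
    have h1 : g * (x * b) = g * (y * d) := by
      calc g * (x * b) = (g * x) * b := by ring
        _ = a * b := by rw [← hx]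
        _ = c * d := he
        _ = (g * y) * d := by rw [← hy]
        _ = g * (y * d) := by ring
    exact Nat.eq_of_mul_eq_mul_left hg h1
  have hyb : y ∣ b := by
    have h1 : y ∣ x * b := by rw [he2]; exact Dvd.intro _ rfl
    exact (hcop.symm.dvd_of_dvd_mul_left h1)
  obtain ⟨h, hh⟩ := hyb
  have hdh : d = x * h := by
    have h1 : y * (x * h) = y * d := by
      rw [← he2, hh]; ring
    exact (Nat.eq_of_mul_eq_mul_left hy0 h1).symm
  have hh0 : 0 < h := by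
    rcases Nat.eq_zero_or_pos h with h' | h'
    · subst h'; omega
    · exact h'
  refine ⟨g, x, y, h, ?_, ?_, hg, hx0, hy0, hh0⟩
  · simp only [phi]
    rw [← hgdef, hax, hcy, hh, Nat.mul_div_cancel_left _ hy0]
  · rw [← hx, ← hy, ← hh, ← hdh]

lemma phi_injOn {B : Finset ℕ} {N : ℕ} (hB : B ⊆ Icc 1 N) :
    Set.InjOn phi (SS B N : Set ((ℕ × ℕ) × (ℕ × ℕ))) := by
  intro q hq r hr h
  obtain ⟨g, x, y, k, h1, h2, -⟩ := phi_spec hB (Finset.mem_coe.1 hq)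
  obtain ⟨g', x', y', k', h1', h2', -⟩ := phi_spec hB (Finset.mem_coe.1 hr)
  rw [h1, h1'] at h
  simp only [Sigma.mk.injEq, Prod.mk.injEq, heq_eq_eq] at h
  obtain ⟨⟨e1, e2⟩, e3, e4⟩ := h
  rw [h2, h2', e1, e2, e3, e4]

/-- target of the parametrisation -/
def Tgt (N : ℕ) : Finset ((_ : ℕ × ℕ) × (ℕ × ℕ)) :=
  (Ioc 0 N ×ˢ Ioc 0 N).sigma
    (fun xy => Ioc 0 (N / max xy.1 xy.2) ×ˢ Ioc 0 (N / max xy.1 xy.2))

lemma phi_mem {B : Finset ℕ} {N : ℕ} (hB : B ⊆ Icc 1 N) {q : (ℕ × ℕ) × (ℕ × ℕ)}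
    (hq : q ∈ SS B N) : phi q ∈ Tgt N := by
  obtain ⟨g, x, y, h, h1, h2, hg, hx, hy, hh⟩ := phi_spec hB hq
  simp only [SS, Finset.mem_filter, Finset.mem_product, Finset.mem_Icc] at hq
  rw [h2] at hq
  simp only at hq
  obtain ⟨⟨⟨ha, -, hb⟩, hc, -, hd⟩, -⟩ := hq
  have ha' := (Finset.mem_Icc.1 (hB ha)).2
  have hc' := (Finset.mem_Icc.1 (hB hc)).2
  rw [h1]
  simp only [Tgt, Finset.mem_sigma, Finset.mem_product, Finset.mem_Ioc]
  have hgx : x ≤ g * x := Nat.le_mul_of_pos_left _ hg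
  have hgy : y ≤ g * y := Nat.le_mul_of_pos_left _ hg
  refine ⟨⟨⟨hx, by omega⟩, hy, by omega⟩, ⟨hg, ?_⟩, hh, ?_⟩
  · rw [Nat.le_div_iff_mul_le (by omega)]
    rcases le_total x y with h | h
    · rw [max_eq_right h]; exact hc'
    · rw [max_eq_left h]; exact ha'
  · rw [Nat.le_div_iff_mul_le (by omega)]
    rcases le_total x y with h' | h'
    · rw [max_eq_right h', mul_comm]; exact hb
    · rw [max_eq_left h', mul_comm]; exact hd

/-- weight on the target -/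
noncomputable def V (t : (_ : ℕ × ℕ) × (ℕ × ℕ)) : ℝ :=
  w (1 / 2) t.1.1 * w (1 / 2) t.1.2 * w (1 / 4) t.2.1

lemma V_nonneg (t : (_ : ℕ × ℕ) × (ℕ × ℕ)) : 0 ≤ V t := by
  unfold V
  have h1 := w_nonneg (z := 1 / 2) (by norm_num) t.1.1
  have h2 := w_nonneg (z := 1 / 2) (by norm_num) t.1.2
  have h3 := w_nonneg (z := 1 / 4) (by norm_num) t.2.1
  positivity

lemma w_sq {g : ℕ} (hg : 0 < g) : w (1 / 2) g * w (1 / 2) g = w (1 / 4) g := by
  rw [w_apply _ hg.ne', w_apply _ hg.ne', ← mul_pow]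
  norm_num

lemma weight_eq {B : Finset ℕ} {N : ℕ} (hB : B ⊆ Icc 1 N) {q : (ℕ × ℕ) × (ℕ × ℕ)}
    (hq : q ∈ SS B N) : w (1 / 2) q.1.1 * w (1 / 2) q.2.1 = V (phi q) := by
  obtain ⟨g, x, y, h, h1, h2, hg, hx, hy, hh⟩ := phi_spec hB hq
  rw [h1]
  rw [h2]
  simp only [V]
  rw [w_mul, w_mul, ← w_sq hg]
  ring

lemma sum_weight_le {B : Finset ℕ} {N : ℕ} (hB : B ⊆ Icc 1 N) :
    ∑ q ∈ SS B N, w (1 / 2) q.1.1 * w (1 / 2) q.2.1 ≤ ∑ t ∈ Tgt N, V t := by
  rw [Finset.sum_congr rfl (fun q hq => weight_eq hB hq)]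
  rw [← Finset.sum_image (f := V) (phi_injOn hB)]
  refine Finset.sum_le_sum_of_subset_of_nonneg ?_ (fun t _ _ => V_nonneg t)
  intro t ht
  rw [Finset.mem_image] at ht
  obtain ⟨q, hq, rfl⟩ := ht
  exact phi_mem hB hq

/-- `A x y` -/
noncomputable def AA (N x y : ℕ) : ℝ :=
  w (1 / 2) x * w (1 / 2) y * (F (1 / 4) (N / x) * (N / x : ℕ))

lemma AA_nonneg (N x y : ℕ) : 0 ≤ AA N x y := by
  unfold AA
  have h1 := w_nonneg (z := 1 / 2) (by norm_num) x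
  have h2 := w_nonneg (z := 1 / 2) (by norm_num) y
  have h3 := F_nonneg (z := 1 / 4) (by norm_num) (N / x)
  positivity

lemma sum_V (N : ℕ) : ∑ t ∈ Tgt N, V t ≤ 2 * T N := by
  unfold Tgt
  rw [Finset.sum_sigma]
  have h1 : ∀ xy ∈ Ioc 0 N ×ˢ Ioc 0 N,
      ∑ s ∈ Ioc 0 (N / max xy.1 xy.2) ×ˢ Ioc 0 (N / max xy.1 xy.2), V ⟨xy, s⟩ ≤
      (if xy.2 ≤ xy.1 then AA N xy.1 xy.2 else 0) + (if xy.1 ≤ xy.2 then AA N xy.2 xy.1 else 0) := by
    rintro ⟨x, y⟩ -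
    simp only
    have h2 : ∑ s ∈ Ioc 0 (N / max x y) ×ˢ Ioc 0 (N / max x y), V ⟨(x, y), s⟩ =
        w (1 / 2) x * w (1 / 2) y * (F (1 / 4) (N / max x y) * (N / max x y : ℕ)) := by
      rw [Finset.sum_product]
      simp only [V, Finset.sum_const, Nat.card_Ioc, tsub_zero, nsmul_eq_mul]
      rw [← Finset.mul_sum, ← Finset.mul_sum]
      unfold F
      ring
    rw [h2]
    rcases le_total x y with h | h
    · rw [max_eq_right h, if_pos h]
      have h3 : w (1 / 2) x * w (1 / 2) y * (F (1 / 4) (N / y) * (N / y : ℕ)) = AA N y x := by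
        unfold AA; ring
      rw [h3]
      have : (0 : ℝ) ≤ (if y ≤ x then AA N x y else 0) := by
        split_ifs
        · exact AA_nonneg _ _ _
        · exact le_rfl
      linarith
    · rw [max_eq_left h, if_pos h]
      have h3 : w (1 / 2) x * w (1 / 2) y * (F (1 / 4) (N / x) * (N / x : ℕ)) = AA N x y := rfl
      rw [h3]
      have : (0 : ℝ) ≤ (if x ≤ y then AA N y x else 0) := by
        split_ifs
        · exact AA_nonneg _ _ _
        · exact le_rfl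
      linarith
  refine (Finset.sum_le_sum h1).trans ?_
  rw [Finset.sum_add_distrib]
  have hT : ∑ x ∈ Ioc 0 N, ∑ y ∈ Ioc 0 N, (if y ≤ x then AA N x y else 0) = T N := by
    unfold T
    refine Finset.sum_congr rfl fun x hx => ?_
    rw [Finset.mem_Ioc] at hx
    rw [← Finset.sum_filter]
    have h5 : (Ioc 0 N).filter (fun y => y ≤ x) = Ioc 0 x := by
      ext y
      simp only [Finset.mem_filter, Finset.mem_Ioc]
      omega
    rw [h5]
    unfold AA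
    have h6 : ∑ y ∈ Ioc 0 x, w (1 / 2) x * w (1 / 2) y * (F (1 / 4) (N / x) * ((N / x : ℕ) : ℝ)) =
        w (1 / 2) x * (F (1 / 4) (N / x) * ((N / x : ℕ) : ℝ)) * ∑ y ∈ Ioc 0 x, w (1 / 2) y := by
      rw [Finset.mul_sum]
      exact Finset.sum_congr rfl fun y _ => by ring
    rw [h6]
    change _ * F (1 / 2) x = _
    ring
  have e1 : ∑ xy ∈ Ioc 0 N ×ˢ Ioc 0 N, (if xy.2 ≤ xy.1 then AA N xy.1 xy.2 else 0) = T N := by
    rw [Finset.sum_product]
    exact hT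
  have e2 : ∑ xy ∈ Ioc 0 N ×ˢ Ioc 0 N, (if xy.1 ≤ xy.2 then AA N xy.2 xy.1 else 0) = T N := by
    rw [Finset.sum_product_right]
    exact hT
  rw [e1, e2]
  linarith

theorem energy_le {B : Finset ℕ} {N k : ℕ} (hB : B ⊆ Icc 1 N)
    (hk : ∀ n ∈ B, ArithmeticFunction.cardFactors n ≤ k) :
    (energy B N : ℝ) ≤ 2 * 4 ^ k * T N := by
  have h1 : (energy B N : ℝ) ≤ ∑ q ∈ SS B N, 4 ^ k * (w (1 / 2) q.1.1 * w (1 / 2) q.2.1) := by
    have h2 : (energy B N : ℝ) = ∑ q ∈ SS B N, (1 : ℝ) := by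
      rw [Finset.sum_const, nsmul_eq_mul, mul_one]; rfl
    rw [h2]
    refine Finset.sum_le_sum fun q hq => ?_
    simp only [SS, Finset.mem_filter, Finset.mem_product, Finset.mem_Icc] at hq
    obtain ⟨⟨⟨ha, -⟩, hc, -⟩, -⟩ := hq
    have key : ∀ a ∈ B, 1 ≤ (2 : ℝ) ^ k * w (1 / 2) a := by
      intro a ha
      have ha' := Finset.mem_Icc.1 (hB ha)
      rw [w_apply _ (by omega)]
      have h3 : ((1 : ℝ) / 2) ^ k ≤ (1 / 2) ^ (ArithmeticFunction.cardFactors a) :=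
        pow_le_pow_of_le_one (by norm_num) (by norm_num) (hk a ha)
      have h4 : (2 : ℝ) ^ k * (1 / 2) ^ k = 1 := by rw [← mul_pow]; norm_num
      have : (0 : ℝ) < 2 ^ k := by positivity
      nlinarith
    have k1 := key _ ha
    have k2 := key _ hc
    have h5 : (4 : ℝ) ^ k = 2 ^ k * 2 ^ k := by rw [← mul_pow]; norm_num
    rw [h5]
    nlinarith
  refine h1.trans ?_
  rw [← Finset.mul_sum]
  have h2 := (sum_weight_le hB).trans (sum_V N)
  have : (0 : ℝ) < 4 ^ k := by positivity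
  nlinarith

end Pool.Agent.H248ME
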