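import Mathlib
import Pool.Agent.H248ME.C

set_option autoImplicit false

namespace Pool.Agent.H248ME

open Finset

/-- products of `j` primes up to `P` -/
def TS (P : ℕ) : ℕ → Finset ℕ
  | 0 => {1}
  | j + 1 => ((P + 1).primesBelow ×ˢ TS P j).image (fun x => x.1 * x.2)

lemma TS_spec (P j : ℕ) : ∀ n ∈ TS P j, 0 < n ∧ n ≤ P ^ j ∧ ArithmeticFunction.cardFactors n = j := by
  induction j with
  | zero =>
    intro n hn
    simp only [TS, Finset.mem_singleton] at hn
    subst hn
    simp
  | succ j ih =>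
    intro n hn
    simp only [TS, Finset.mem_image, Finset.mem_product, Nat.mem_primesBelow] at hn
    obtain ⟨⟨p, m⟩, ⟨⟨h1, h2⟩, h3⟩, rfl⟩ := hn
    obtain ⟨hm0, hm1, hm2⟩ := ih m h3
    simp only at *
    refine ⟨Nat.mul_pos h2.pos hm0, ?_, ?_⟩
    · rw [pow_succ, mul_comm]
      exact Nat.mul_le_mul hm1 (by omega)
    · rw [ArithmeticFunction.cardFactors_mul h2.ne_zero hm0.ne',
        ArithmeticFunction.cardFactors_apply_prime h2, hm2, add_comm]

lemma card_primeFactors_le (n : ℕ) : n.primeFactors.card ≤ ArithmeticFunction.cardFactors n := by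
  rw [ArithmeticFunction.cardFactors_apply]
  exact List.toFinset_card_le _

lemma fiber_card (S : Finset (ℕ × ℕ)) (hS : ∀ x ∈ S, x.1.Prime) (n : ℕ) (hn : 0 < n) :
    (S.filter (fun x => x.1 * x.2 = n)).card ≤ ArithmeticFunction.cardFactors n := by
  refine le_trans ?_ (card_primeFactors_le n)
  refine Finset.card_le_card_of_injOn Prod.fst ?_ ?_
  · intro x hx
    rw [Finset.mem_coe, Finset.mem_filter] at hx
    rw [Finset.mem_coe, Nat.mem_primeFactors]
    exact ⟨hS x hx.1, ⟨x.2, hx.2.symm⟩, hn.ne'⟩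
  · intro x hx y hy hxy
    rw [Finset.mem_coe, Finset.mem_filter] at hx hy
    have h1 := hx.2
    have h2 := hy.2
    have h3 := (hS x hx.1).pos
    refine Prod.ext hxy ?_
    rw [← h2, ← hxy] at h1
    exact Nat.eq_of_mul_eq_mul_left h3 h1

lemma PS_pow_le (P j : ℕ) : PS P ^ j ≤ (j.factorial : ℝ) * ∑ m ∈ TS P j, (1 : ℝ) / m := by
  induction j with
  | zero => simp [TS]
  | succ j ih =>
    have hPS : 0 ≤ PS P := Finset.sum_nonneg fun p _ => by positivity
    have h1 : PS P * ∑ m ∈ TS P j, (1 : ℝ) / m =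
        ∑ x ∈ (P + 1).primesBelow ×ˢ TS P j, (1 : ℝ) / ((x.1 * x.2 : ℕ) : ℝ) := by
      unfold PS
      rw [Finset.sum_mul_sum, Finset.sum_product]
      refine Finset.sum_congr rfl fun p _ => Finset.sum_congr rfl fun m _ => ?_
      push_cast
      rw [one_div_mul_one_div]
    have h2 : ∑ x ∈ (P + 1).primesBelow ×ˢ TS P j, (1 : ℝ) / ((x.1 * x.2 : ℕ) : ℝ) ≤
        ((j : ℝ) + 1) * ∑ n ∈ TS P (j + 1), (1 : ℝ) / n := by
      have hmaps : ∀ x ∈ (P + 1).primesBelow ×ˢ TS P j, x.1 * x.2 ∈ TS P (j + 1) := by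
        intro x hx
        exact Finset.mem_image_of_mem _ hx
      rw [← Finset.sum_fiberwise_of_maps_to hmaps, Finset.mul_sum]
      refine Finset.sum_le_sum fun n hn => ?_
      obtain ⟨hn0, -, hn2⟩ := TS_spec P (j + 1) n hn
      have h3 : ∀ x ∈ ((P + 1).primesBelow ×ˢ TS P j).filter (fun x => x.1 * x.2 = n),
          (1 : ℝ) / ((x.1 * x.2 : ℕ) : ℝ) = 1 / n := by
        intro x hx
        rw [Finset.mem_filter] at hx
        rw [hx.2]
      rw [Finset.sum_congr rfl h3, Finset.sum_const, nsmul_eq_mul]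
      apply mul_le_mul_of_nonneg_right _ (by positivity)
      have h4 := fiber_card ((P + 1).primesBelow ×ˢ TS P j) (by
        intro x hx
        rw [Finset.mem_product, Nat.mem_primesBelow] at hx
        exact hx.1.2) n hn0
      rw [hn2] at h4
      exact_mod_cast h4
    calc PS P ^ (j + 1) = PS P * PS P ^ j := by ring
      _ ≤ PS P * ((j.factorial : ℝ) * ∑ m ∈ TS P j, (1 : ℝ) / m) := mul_le_mul_of_nonneg_left ih hPS
      _ = (j.factorial : ℝ) * (PS P * ∑ m ∈ TS P j, (1 : ℝ) / m) := by ring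
      _ ≤ (j.factorial : ℝ) * (((j : ℝ) + 1) * ∑ n ∈ TS P (j + 1), (1 : ℝ) / n) := by
          apply mul_le_mul_of_nonneg_left _ (by positivity)
          rw [h1]; exact h2
      _ = _ := by
          rw [Nat.factorial_succ]; push_cast; ring

/-- the set of integers with at most `k` prime factors -/
def BB (N k : ℕ) : Finset ℕ := (Icc 1 N).filter (fun n => ArithmeticFunction.cardFactors n ≤ k)

lemma primeCounting_lower {y : ℕ} (hy : 16 ≤ y) : (y : ℝ) / (2 * Real.log y) ≤ ((y + 1).primesBelow.card : ℝ) := by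
  have h1 := Chebyshev.pi_ge y
  have h2 : ((y + 1).primesBelow.card : ℝ) = (Nat.primeCounting y : ℝ) := by
    rw [Nat.primesBelow_card_eq_primeCounting']
    rfl
  rw [h2]
  refine le_trans ?_ h1
  have hy' : (16 : ℝ) ≤ y := by exact_mod_cast hy
  have hl : 0 < Real.log y := Real.log_pos (by linarith)
  rw [div_le_div_iff₀ (by positivity) hl]
  have h3 : Real.log ((y : ℝ) + 1) ≤ ((y : ℝ) + 1) / 16 + 4 * Real.log 2 - 1 := by
    have h4 := Real.log_le_sub_one_of_pos (show 0 < ((y : ℝ) + 1) / 16 by positivity)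
    rw [Real.log_div (by positivity) (by norm_num)] at h4
    have h5 : Real.log 16 = 4 * Real.log 2 := by
      rw [show (16 : ℝ) = 2 ^ 4 by norm_num, Real.log_pow]; norm_num
    linarith
  have h6 := Real.log_two_gt_d9
  have h7 := Real.log_two_lt_d9
  have h8 : (y : ℝ) / 2 ≤ y * Real.log 2 - Real.log ((y : ℝ) + 1) := by nlinarith
  nlinarith

lemma count_lower {N P j : ℕ} (hN : 2 ≤ N) (h16 : 16 * P ^ j ≤ N) :
    PS P ^ j / (j.factorial : ℝ) * (N / (4 * Real.log N)) ≤ ((j : ℝ) + 1) * (BB N (j + 1)).card := by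
  have hN0 : (0 : ℝ) < N := by exact_mod_cast (by omega : 0 < N)
  have hlN : 0 < Real.log N := Real.log_pos (by exact_mod_cast (by omega : 1 < N))
  -- the set of pairs
  set U : Finset (ℕ × ℕ) := ((Icc 1 N) ×ˢ (TS P j)).filter
    (fun x => x.1.Prime ∧ x.1 * x.2 ≤ N) with hU
  have hcardU : (U.card : ℝ) ≤ ((j : ℝ) + 1) * (BB N (j + 1)).card := by
    have h1 : U.card ≤ (j + 1) * (BB N (j + 1)).card := by
      refine Finset.card_le_mul_card_image_of_maps_to (f := fun x : ℕ × ℕ => x.1 * x.2) ?_ _ ?_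
      · intro x hx
        rw [hU, Finset.mem_filter, Finset.mem_product] at hx
        obtain ⟨⟨h1, h2⟩, h3, h4⟩ := hx
        obtain ⟨h5, h6, h7⟩ := TS_spec P j _ h2
        simp only [BB, Finset.mem_filter, Finset.mem_Icc]
        refine ⟨⟨Nat.mul_pos h3.pos h5, h4⟩, ?_⟩
        rw [ArithmeticFunction.cardFactors_mul h3.ne_zero h5.ne',
          ArithmeticFunction.cardFactors_apply_prime h3, h7]
        omega
      · intro n hn
        simp only [BB, Finset.mem_filter, Finset.mem_Icc] at hn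
        refine (fiber_card U ?_ n (by omega)).trans hn.2
        intro x hx
        rw [hU, Finset.mem_filter] at hx
        exact hx.2.1
    exact_mod_cast h1
  refine le_trans ?_ hcardU
  have h2 : (U.card : ℝ) = ∑ m ∈ TS P j, (((N / m + 1).primesBelow.card : ℕ) : ℝ) := by
    rw [← Nat.cast_sum]
    congr 1
    rw [hU, Finset.card_filter, Finset.sum_product_right]
    refine Finset.sum_congr rfl fun m hm => ?_
    obtain ⟨h5, h6, h7⟩ := TS_spec P j _ hm
    rw [← Finset.card_filter]
    congr 1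
    ext p
    simp only [Finset.mem_filter, Finset.mem_Icc, Nat.mem_primesBelow]
    constructor
    · rintro ⟨⟨h8, h9⟩, h10, h11⟩
      refine ⟨?_, h10⟩
      have := (Nat.le_div_iff_mul_le h5).2 h11
      omega
    · rintro ⟨h8, h9⟩
      have h10 : p ≤ N / m := by omega
      have h11 := (Nat.le_div_iff_mul_le h5).1 h10
      refine ⟨⟨h9.pos, ?_⟩, h9, h11⟩
      exact h10.trans (Nat.div_le_self _ _)
  rw [h2]
  have h3 : ∀ m ∈ TS P j, (N / (4 * Real.log N)) * (1 / m) ≤ (((N / m + 1).primesBelow.card : ℕ) : ℝ) := by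
    intro m hm
    obtain ⟨h5, h6, h7⟩ := TS_spec P j _ hm
    have h16m : 16 * m ≤ N := by
      have := Nat.mul_le_mul_left 16 h6
      omega
    have hy : 16 ≤ N / m := (Nat.le_div_iff_mul_le h5).2 h16m
    have h8 := primeCounting_lower hy
    refine le_trans ?_ h8
    have hm0 : (0 : ℝ) < m := by exact_mod_cast h5
    have hyR : (16 : ℝ) ≤ ((N / m : ℕ) : ℝ) := by exact_mod_cast hy
    have hly : 0 < Real.log ((N / m : ℕ) : ℝ) := Real.log_pos (by linarith)
    have h9 : Real.log ((N / m : ℕ) : ℝ) ≤ Real.log N := by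
      apply Real.log_le_log (by linarith)
      exact_mod_cast Nat.div_le_self _ _
    have h10 : (N : ℝ) / (2 * m) ≤ ((N / m : ℕ) : ℝ) := by
      have h11 : (N : ℝ) / m < ((N / m : ℕ) : ℝ) + 1 := by
        rw [← Nat.floor_div_eq_div (K := ℝ)]
        exact Nat.lt_floor_add_one _
      have h12 : (N : ℝ) / (2 * m) = (N / m) / 2 := by field_simp
      rw [h12]
      linarith
    calc (N : ℝ) / (4 * Real.log N) * (1 / m) = (N / (2 * m)) / (2 * Real.log N) := by
          field_simp; ring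
      _ ≤ ((N / m : ℕ) : ℝ) / (2 * Real.log ((N / m : ℕ) : ℝ)) := by
          gcongr
  refine le_trans ?_ (Finset.sum_le_sum h3)
  rw [← Finset.mul_sum, mul_comm]
  apply mul_le_mul_of_nonneg_left _ (by positivity)
  rw [div_le_iff₀ (by positivity), mul_comm]
  exact PS_pow_le P j

lemma log_factorial_le (j : ℕ) (hj : 1 ≤ j) :
    Real.log (j.factorial : ℝ) ≤ ((j : ℝ) + 1) * Real.log j + 1 - j := by
  induction j, hj using Nat.le_induction with
  | base => simp
  | succ j hj ih =>
    rw [Nat.factorial_succ]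
    push_cast
    have hj0 : (0 : ℝ) < j := by exact_mod_cast hj
    rw [Real.log_mul (by positivity) (by positivity)]
    have h1 : 1 / ((j : ℝ) + 1) ≤ Real.log ((j : ℝ) + 1) - Real.log j := by
      have h2 := Real.log_le_sub_one_of_pos (show 0 < (j : ℝ) / (j + 1) by positivity)
      rw [Real.log_div (by positivity) (by positivity)] at h2
      have h3 : (j : ℝ) / (j + 1) - 1 = - (1 / ((j : ℝ) + 1)) := by field_simp; ring
      linarith
    have h4 : 1 ≤ ((j : ℝ) + 1) * (Real.log ((j : ℝ) + 1) - Real.log j) := by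
      have := mul_le_mul_of_nonneg_left h1 (show 0 ≤ (j : ℝ) + 1 by positivity)
      have h5 : ((j : ℝ) + 1) * (1 / ((j : ℝ) + 1)) = 1 := by field_simp
      linarith
    nlinarith

end Pool.Agent.H248ME
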