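import Mathlib
import Pool.Agent.H248ME.D

set_option autoImplicit false

namespace Pool.Agent.H248ME

open Finset Filter Topology

/-- `log log N` -/
noncomputable def LL (N : ℕ) : ℝ := Real.log (Real.log N)

lemma tendsto_LL : Tendsto LL atTop atTop :=
  Real.tendsto_log_atTop.comp (Real.tendsto_log_atTop.comp tendsto_natCast_atTop_atTop)

lemma tendsto_logdiv : Tendsto (fun L : ℝ => Real.log L / L) atTop (𝓝 0) :=
  Real.isLittleO_log_id_atTop.tendsto_div_nhds_zero

lemma tendsto_logdiv2 : Tendsto (fun L : ℝ => Real.log (2 * L) / L) atTop (𝓝 0) := by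
  have h1 : Tendsto (fun L : ℝ => 2 * L) atTop atTop :=
    tendsto_id.const_mul_atTop (by norm_num)
  have h2 := (tendsto_logdiv.comp h1).const_mul 2
  rw [mul_zero] at h2
  refine h2.congr fun L => ?_
  simp only [Function.comp]
  rcases eq_or_ne L 0 with h | h
  · subst h; simp
  · field_simp

lemma tendsto_G (C : ℝ) : Tendsto (fun L : ℝ => (1 / 2 - 2 / L) *
      (Real.log (2 * (1 - Real.log (2 * L) / L - C / L)) + 1) - 1 - 2 * (Real.log L / L)
      - (1 + Real.log 4) / L) atTop (𝓝 ((1 / 2 - 0) * (Real.log (2 * (1 - 0 - 0)) + 1) - 1 - 2 * 0 - 0)) := by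
  have hc : ∀ c : ℝ, Tendsto (fun L : ℝ => c / L) atTop (𝓝 0) := fun c =>
    tendsto_const_nhds.div_atTop tendsto_id
  refine Tendsto.sub (Tendsto.sub (Tendsto.sub (Tendsto.mul (tendsto_const_nhds.sub (hc 2))
    (Tendsto.add ?_ tendsto_const_nhds)) tendsto_const_nhds) (tendsto_logdiv.const_mul 2)) (hc _)
  have h1 : Tendsto (fun L : ℝ => 2 * (1 - Real.log (2 * L) / L - C / L)) atTop
      (𝓝 (2 * (1 - 0 - 0))) :=
    ((tendsto_const_nhds.sub tendsto_logdiv2).sub (hc C)).const_mul 2
  exact (Real.continuousAt_log (by norm_num)).tendsto.comp h1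

lemma eventually_G (C ε : ℝ) (hε : 0 < ε) : ∀ᶠ L : ℝ in atTop,
    -((1 - Real.log 2) / 2 + ε) * L ≤
      (L / 2 - 2) * (Real.log (2 * (L - Real.log (2 * L) - C) / L) + 1) - L - 2 * Real.log L
        - (1 + Real.log 4) := by
  have h1 := tendsto_G C
  have h2 : -((1 - Real.log 2) / 2 + ε) <
      ((1 / 2 - 0) * (Real.log (2 * (1 - 0 - 0)) + 1) - 1 - 2 * 0 - 0) := by
    norm_num
    linarith
  filter_upwards [h1.eventually (lt_mem_nhds h2), eventually_gt_atTop 0] with L hL hL0
  have h3 := (mul_lt_mul_of_pos_right hL hL0).le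
  refine h3.trans (le_of_eq ?_)
  have h4 : 2 * (L - Real.log (2 * L) - C) / L = 2 * (1 - Real.log (2 * L) / L - C / L) := by
    field_simp
  rw [h4]
  field_simp

lemma eventually_q (C : ℝ) : ∀ᶠ L : ℝ in atTop,
    0 < L - Real.log (2 * L) - C ∧ 0 ≤ Real.log (2 * (L - Real.log (2 * L) - C) / L) + 1 := by
  have hc : ∀ c : ℝ, Tendsto (fun L : ℝ => c / L) atTop (𝓝 0) := fun c =>
    tendsto_const_nhds.div_atTop tendsto_id
  have h1 : Tendsto (fun L : ℝ => 2 * (1 - Real.log (2 * L) / L - C / L)) atTop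
      (𝓝 (2 * (1 - 0 - 0))) :=
    ((tendsto_const_nhds.sub tendsto_logdiv2).sub (hc C)).const_mul 2
  have h2 : (1 : ℝ) < 2 * (1 - 0 - 0) := by norm_num
  filter_upwards [h1.eventually (lt_mem_nhds h2), eventually_gt_atTop 0] with L hL hL0
  have h4 : 2 * (L - Real.log (2 * L) - C) / L = 2 * (1 - Real.log (2 * L) / L - C / L) := by
    field_simp
  have h5 : L - Real.log (2 * L) - C = L * (1 - Real.log (2 * L) / L - C / L) := by field_simp
  constructor
  · rw [h5]; apply mul_pos hL0; linarith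
  · rw [h4]
    have := Real.log_nonneg hL.le
    linarith

/-- the number of prime factors allowed -/
noncomputable def kk (N : ℕ) : ℕ := ⌊LL N / 2⌋₊

theorem lower (ε : ℝ) (hε : 0 < ε) : ∀ᶠ N : ℕ in atTop,
    (N : ℝ) * Real.exp (-((1 - Real.log 2) / 2 + ε) * LL N) ≤ (BB N (kk N)).card := by
  obtain ⟨C, hC0, hC⟩ := PS_bounds
  have hx : Tendsto (fun N : ℕ => Real.log N) atTop atTop :=
    Real.tendsto_log_atTop.comp tendsto_natCast_atTop_atTop
  have hratio : ∀ᶠ N : ℕ in atTop, 2 * LL N ≤ Real.log N := by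
    have h1 := (tendsto_logdiv.comp hx).eventually (gt_mem_nhds (show (0 : ℝ) < 1 / 2 by norm_num))
    filter_upwards [h1, hx.eventually_gt_atTop 0] with N h1 h2
    simp only [Function.comp] at h1
    rw [div_lt_iff₀ h2] at h1
    unfold LL
    linarith
  filter_upwards [tendsto_LL.eventually (eventually_G C ε hε), tendsto_LL.eventually (eventually_q C),
    tendsto_LL.eventually_ge_atTop 6, hx.eventually_ge_atTop 6, hratio, eventually_ge_atTop 2]
    with N hG hq hL6 hlog6 hrat hN2
  set L := LL N with hLdef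
  have hN0 : (0 : ℝ) < N := by exact_mod_cast (by omega : 0 < N)
  set k := kk N with hk
  have hk1 : (k : ℝ) ≤ L / 2 := Nat.floor_le (by linarith)
  have hk2 : L / 2 < k + 1 := Nat.lt_floor_add_one _
  have hk3 : 3 ≤ k := by
    apply Nat.le_floor
    push_cast; linarith
  obtain ⟨j, hj⟩ : ∃ j, k = j + 1 := ⟨k - 1, by omega⟩
  have hj1 : 1 ≤ j := by omega
  have hjR : (k : ℝ) = j + 1 := by rw [hj]; push_cast; ring
  have hj0 : (0 : ℝ) < j := by exact_mod_cast hj1
  set x := Real.log N / L with hxdef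
  have hL0 : 0 < L := by linarith
  have hx2 : 2 ≤ x := by rw [hxdef, le_div_iff₀ hL0]; linarith
  set P := ⌊Real.exp x⌋₊ with hP
  have hPle : (P : ℝ) ≤ Real.exp x := Nat.floor_le (Real.exp_pos _).le
  have hPge : Real.exp x < P + 1 := Nat.lt_floor_add_one _
  have hu : 2 ≤ Real.exp (x / 2) := by
    have := Real.add_one_le_exp (x / 2)
    linarith
  have husq : Real.exp x = Real.exp (x / 2) ^ 2 := by
    rw [← Real.exp_nat_mul]; congr 1; push_cast; ring
  have hPge2 : Real.exp (x / 2) ≤ P := by nlinarith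
  have hP2 : 2 ≤ P := by exact_mod_cast hu.trans hPge2
  have hP0 : (0 : ℝ) < P := by exact_mod_cast (by omega : 0 < P)
  -- (a)
  have h16 : 16 * P ^ j ≤ N := by
    have h1 : (P : ℝ) ^ j ≤ Real.exp (Real.log N / 2) := by
      calc (P : ℝ) ^ j ≤ (Real.exp x) ^ j := by gcongr
        _ = Real.exp (j * x) := by rw [← Real.exp_nat_mul]
        _ ≤ Real.exp (Real.log N / 2) := by
            apply Real.exp_le_exp.2
            rw [hxdef, ← mul_div_assoc, div_le_iff₀ hL0]
            have : (j : ℝ) ≤ L / 2 := by linarith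
            nlinarith
    have h2 : (16 : ℝ) ≤ Real.exp (Real.log N / 2) := by
      have h3 : (16 : ℝ) = Real.exp (4 * Real.log 2) := by
        have h4 : 4 * Real.log 2 = Real.log 16 := by
          rw [show (16 : ℝ) = 2 ^ 4 by norm_num, Real.log_pow]; norm_num
        rw [h4, Real.exp_log (by norm_num)]
      rw [h3]
      apply Real.exp_le_exp.2
      have := Real.log_two_lt_d9
      linarith
    have h3 : (16 : ℝ) * (P : ℝ) ^ j ≤ N := by
      have h4 : Real.exp (Real.log N / 2) * Real.exp (Real.log N / 2) = N := by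
        rw [← Real.exp_add, add_halves, Real.exp_log hN0]
      have h5 : 0 < (P : ℝ) ^ j := by positivity
      calc (16 : ℝ) * (P : ℝ) ^ j ≤ Real.exp (Real.log N / 2) * Real.exp (Real.log N / 2) := by
            gcongr
        _ = N := h4
    exact_mod_cast h3
  have hcount := count_lower hN2 h16
  rw [← hj] at hcount
  -- (b)
  have hlogP : Real.log N / (2 * L) ≤ Real.log P := by
    have h1 := Real.log_le_log (Real.exp_pos _) hPge2
    rw [Real.log_exp] at h1
    refine le_trans (le_of_eq ?_) h1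
    rw [hxdef]; field_simp
  have hloglogP : L - Real.log (2 * L) ≤ Real.log (Real.log P) := by
    have h1 : 0 < Real.log N / (2 * L) := by positivity
    have h2 := Real.log_le_log h1 hlogP
    rw [Real.log_div (by positivity) (by positivity)] at h2
    exact h2
  set S0 := L - Real.log (2 * L) - C with hS0
  have hPS : S0 ≤ PS P := by
    have := (abs_le.1 (hC P hP2)).1
    rw [hS0]; linarith
  have hS0pos : 0 < S0 := hq.1
  -- main inequality in logarithmic form
  have hcount2 : S0 ^ j / (j.factorial : ℝ) * (N / (4 * Real.log N)) ≤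
      ((j : ℝ) + 1) * (BB N k).card := by
    refine le_trans ?_ hcount
    gcongr
  have hlhs : 0 < S0 ^ j / (j.factorial : ℝ) * (N / (4 * Real.log N)) := by
    have : 0 < Real.log N := by linarith
    positivity
  have hcardpos : 0 < ((BB N k).card : ℝ) := by
    by_contra hneg
    push Not at hneg
    have h1 : 0 ≤ ((BB N k).card : ℝ) := Nat.cast_nonneg _
    have h2 : ((BB N k).card : ℝ) = 0 := le_antisymm hneg h1
    rw [h2, mul_zero] at hcount2
    linarith
  have hlog := Real.log_le_log hlhs hcount2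
  have hlN0 : 0 < Real.log N := by linarith
  rw [Real.log_mul (by positivity) (by positivity), Real.log_mul (by positivity) (by positivity),
    Real.log_div (by positivity) (by positivity), Real.log_div (by positivity) (by positivity),
    Real.log_mul (by positivity) (by positivity), Real.log_pow] at hlog
  have hfact := log_factorial_le j hj1
  have hlogk : Real.log ((j : ℝ) + 1) ≤ Real.log L := by
    apply Real.log_le_log (by positivity); linarith
  have hlogj : Real.log (j : ℝ) ≤ Real.log L := by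
    apply Real.log_le_log (by positivity); linarith
  have hmain : (L / 2 - 2) * (Real.log (2 * S0 / L) + 1) ≤ j * Real.log S0 - j * Real.log j + j := by
    have h1 : Real.log (2 * S0 / L) ≤ Real.log S0 - Real.log j := by
      rw [← Real.log_div (by positivity) (by positivity)]
      apply Real.log_le_log (by positivity)
      rw [div_le_div_iff₀ hL0 hj0]
      have : (j : ℝ) ≤ L / 2 := by linarith
      nlinarith
    have h2 : L / 2 - 2 ≤ j := by linarith
    have h3 : (L / 2 - 2) * (Real.log (2 * S0 / L) + 1) ≤ j * (Real.log (2 * S0 / L) + 1) :=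
      mul_le_mul_of_nonneg_right h2 hq.2
    have h4 : (j : ℝ) * (Real.log (2 * S0 / L) + 1) ≤ j * (Real.log S0 - Real.log j + 1) :=
      mul_le_mul_of_nonneg_left (by linarith) hj0.le
    linarith
  have hfinal : Real.log N + -((1 - Real.log 2) / 2 + ε) * L ≤ Real.log ((BB N k).card : ℝ) := by
    have hLL : Real.log (Real.log N) = L := rfl
    rw [hLL] at hlog
    linarith
  have h5 := Real.exp_le_exp.2 hfinal
  rw [Real.exp_add, Real.exp_log hN0, Real.exp_log hcardpos] at h5
  exact h5

theorem upper (ε : ℝ) (hε : 0 < ε) : ∀ᶠ N : ℕ in atTop,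
    (energy (BB N (kk N)) N : ℝ) ≤ (N : ℝ) ^ 2 * Real.exp (-(3 / 4 - Real.log 2 - ε) * LL N) := by
  obtain ⟨C, hC0, hC⟩ := T_le
  have hx : Tendsto (fun N : ℕ => Real.log N) atTop atTop :=
    Real.tendsto_log_atTop.comp tendsto_natCast_atTop_atTop
  have h1 : ∀ᶠ L : ℝ in atTop, 2 * C * (3 + L) ≤ Real.exp (ε * L) := by
    have h2 := isLittleO_pow_exp_pos_mul_atTop 1 hε
    have h3 : (fun L : ℝ => 2 * C * (3 + L)) =o[atTop] fun L => Real.exp (ε * L) := by
      have h4 : (fun L : ℝ => 2 * C * (3 + L)) = fun L : ℝ => 2 * C * 3 * (1 : ℝ) + 2 * C * L ^ 1 := by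
        funext L; ring
      rw [h4]
      refine Asymptotics.IsLittleO.add ?_ (h2.const_mul_left _)
      have h5 := isLittleO_pow_exp_pos_mul_atTop 0 hε
      have h6 := h5.const_mul_left (2 * C * 3)
      refine h6.congr_left fun L => ?_
      simp
    filter_upwards [h3.bound (show (0 : ℝ) < 1 by norm_num)] with L hL
    rw [one_mul, Real.norm_of_nonneg (Real.exp_pos _).le] at hL
    exact (Real.le_norm_self _).trans hL
  filter_upwards [tendsto_LL.eventually h1, tendsto_LL.eventually_ge_atTop 0, hx.eventually_ge_atTop 1,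
    eventually_ge_atTop 2] with N hE hL0 hlog1 hN2
  set L := LL N with hLdef
  have hN0 : (0 : ℝ) < N := by exact_mod_cast (by omega : 0 < N)
  have h2 := energy_le (B := BB N (kk N)) (N := N) (k := kk N) (Finset.filter_subset _ _) (by
    intro n hn
    exact (Finset.mem_filter.1 hn).2)
  have h3 := hC N (by omega)
  set I := Nat.log 2 N with hI
  have hlogL : Real.exp L = Real.log N := by
    rw [hLdef]; unfold LL; rw [Real.exp_log (by linarith)]
  have hI1 : Real.log N ≤ (I : ℝ) + 2 := by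
    have h4 : (N : ℝ) < 2 ^ (I + 1) := by
      exact_mod_cast Nat.lt_pow_succ_log_self (by norm_num) N
    have h5 := Real.log_le_log hN0 h4.le
    rw [Real.log_pow] at h5
    push_cast at h5
    have := Real.log_two_lt_d9
    nlinarith [Nat.cast_nonneg (α := ℝ) I]
  have hI2 : (I : ℝ) + 1 ≤ 3 * Real.log N := by
    have h4 : (2 : ℝ) ^ I ≤ N := by exact_mod_cast Nat.pow_log_le_self 2 (by omega)
    have h5 := Real.log_le_log (by positivity) h4
    rw [Real.log_pow] at h5
    have := Real.log_two_gt_d9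
    nlinarith [Nat.cast_nonneg (α := ℝ) I]
  have h4 : ((I : ℝ) + 2) ^ (-3 / 4 : ℝ) ≤ Real.exp (-3 / 4 * L) := by
    have h5 : ((I : ℝ) + 2) ^ (-3 / 4 : ℝ) ≤ (Real.log N) ^ (-3 / 4 : ℝ) :=
      Real.rpow_le_rpow_of_nonpos (by linarith) hI1 (by norm_num)
    refine h5.trans (le_of_eq ?_)
    rw [← hlogL, ← Real.exp_mul]
    congr 1; ring
  have h5 : 1 + Real.log ((I : ℝ) + 1) ≤ 3 + L := by
    have h6 : Real.log ((I : ℝ) + 1) ≤ Real.log (3 * Real.log N) :=
      Real.log_le_log (by positivity) hI2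
    rw [Real.log_mul (by norm_num) (by linarith)] at h6
    have h7 : Real.log 3 ≤ 2 := by
      have := Real.log_le_sub_one_of_pos (show (0 : ℝ) < 3 by norm_num)
      linarith
    have : Real.log (Real.log N) = L := rfl
    linarith
  have h6 : (4 : ℝ) ^ (kk N) ≤ Real.exp (Real.log 2 * L) := by
    have hk1 : ((kk N : ℕ) : ℝ) ≤ L / 2 := Nat.floor_le (by linarith)
    have h7 : (4 : ℝ) = Real.exp (2 * Real.log 2) := by
      have h4 : 2 * Real.log 2 = Real.log 4 := by
        rw [show (4 : ℝ) = 2 ^ 2 by norm_num, Real.log_pow]; norm_num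
      rw [h4, Real.exp_log (by norm_num)]
    rw [h7, ← Real.exp_nat_mul]
    apply Real.exp_le_exp.2
    have := Real.log_two_gt_d9
    nlinarith
  have h7 : 0 ≤ 1 + Real.log ((I : ℝ) + 1) := by
    have := Real.log_nonneg (show (1 : ℝ) ≤ (I : ℝ) + 1 by linarith [Nat.cast_nonneg (α := ℝ) I])
    linarith
  have h8 : 0 ≤ ((I : ℝ) + 2) ^ (-3 / 4 : ℝ) := by positivity
  calc (energy (BB N (kk N)) N : ℝ) ≤ 2 * 4 ^ (kk N) * T N := h2
    _ ≤ 2 * 4 ^ (kk N) * (C * (N : ℝ) ^ 2 * ((I : ℝ) + 2) ^ (-3 / 4 : ℝ) *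
      (1 + Real.log ((I : ℝ) + 1))) := by
        apply mul_le_mul_of_nonneg_left h3 (by positivity)
    _ ≤ 2 * Real.exp (Real.log 2 * L) * (C * (N : ℝ) ^ 2 * Real.exp (-3 / 4 * L) * (3 + L)) := by
        gcongr
    _ = (N : ℝ) ^ 2 * (2 * C * (3 + L)) * (Real.exp (Real.log 2 * L) * Real.exp (-3 / 4 * L)) := by ring
    _ ≤ (N : ℝ) ^ 2 * Real.exp (ε * L) * (Real.exp (Real.log 2 * L) * Real.exp (-3 / 4 * L)) := by
        gcongr
    _ = _ := by
        rw [mul_assoc, ← Real.exp_add, ← Real.exp_add]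
        congr 2; ring

end Pool.Agent.H248ME
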